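import Pool.Agent.Helper84.MP.Defs

set_option autoImplicit false

/-! The rank of a matrix product. -/

namespace Pool.Agent.Helper84.MP

open Finset Matrix

variable {K : Type*} [Field K]

/-- the product of the matrices `M i (w i)`, `i < n`, in this order -/
def mprod {s b : ℕ} (M : ℕ → Fin b → Matrix (Fin s) (Fin s) K) : (n : ℕ) → (Fin n → Fin b) →
    Matrix (Fin s) (Fin s) K
  | 0, _ => 1
  | n + 1, w => mprod M n (fun i => w i.castSucc) * M n (w (Fin.last n))

/-- the factors before `k` -/
def pre {s b : ℕ} (M : ℕ → Fin b → Matrix (Fin s) (Fin s) K) (k : ℕ) : (n : ℕ) →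
    (Fin n → Fin b) → Matrix (Fin s) (Fin s) K
  | 0, _ => 1
  | n + 1, w => if n < k then pre M k n (fun i => w i.castSucc) * M n (w (Fin.last n))
      else pre M k n (fun i => w i.castSucc)

/-- the factors from `k` on -/
def suf {s b : ℕ} (M : ℕ → Fin b → Matrix (Fin s) (Fin s) K) (k : ℕ) : (n : ℕ) →
    (Fin n → Fin b) → Matrix (Fin s) (Fin s) K
  | 0, _ => 1
  | n + 1, w => if n < k then 1
      else suf M k n (fun i => w i.castSucc) * M n (w (Fin.last n))

lemma suf_one {s b : ℕ} (M : ℕ → Fin b → Matrix (Fin s) (Fin s) K) (k : ℕ) :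
    ∀ (n : ℕ) (w : Fin n → Fin b), n ≤ k → suf M k n w = 1
  | 0, _, _ => rfl
  | n + 1, w, h => by
    unfold suf
    rw [if_pos (by omega)]

lemma mprod_split {s b : ℕ} (M : ℕ → Fin b → Matrix (Fin s) (Fin s) K) (k : ℕ) :
    ∀ (n : ℕ) (x w y : Fin n → Fin b), (∀ i : Fin n, (i : ℕ) < k → y i = x i) →
      (∀ i : Fin n, ¬ (i : ℕ) < k → y i = w i) → mprod M n y = pre M k n x * suf M k n w
  | 0, _, _, _, _, _ => by
    unfold mprod pre suf
    rw [one_mul]
  | n + 1, x, w, y, h1, h2 => by
    have ih := mprod_split M k n (fun i => x i.castSucc) (fun i => w i.castSucc)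
      (fun i => y i.castSucc) (fun i hi => h1 i.castSucc hi) (fun i hi => h2 i.castSucc hi)
    unfold mprod pre suf
    by_cases h : n < k
    · rw [if_pos h, if_pos h, ih, suf_one M k n _ h.le, mul_one, mul_one,
        h1 (Fin.last n) (by rw [Fin.val_last]; exact h)]
    · rw [if_neg h, if_neg h, ih, h2 (Fin.last n) (by rw [Fin.val_last]; exact h), mul_assoc]

/-- Piece R -/
theorem crk_mprod {s b n : ℕ} (M : ℕ → Fin b → Matrix (Fin s) (Fin s) K) (u v : Fin s → K)
    (k : ℕ) : crk (fun w : Fin n → Fin b => u ⬝ᵥ (mprod M n w).mulVec v)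
      (univ.filter fun i : Fin n => (i : ℕ) < k) ≤ s := by
  obtain ⟨g, hg⟩ : ∃ g : Fin s → (Fin n → Fin b) → K,
      g = fun l x => Matrix.vecMul u (pre M k n x) l := ⟨_, rfl⟩
  have hle : Submodule.span K (Set.range (col (fun w : Fin n → Fin b =>
      u ⬝ᵥ (mprod M n w).mulVec v) (univ.filter fun i : Fin n => (i : ℕ) < k))) ≤
      Submodule.span K (Set.range g) := by
    rw [Submodule.span_le]
    rintro _ ⟨w, rfl⟩
    have h1 : col (fun w : Fin n → Fin b => u ⬝ᵥ (mprod M n w).mulVec v)
        (univ.filter fun i : Fin n => (i : ℕ) < k) w =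
        ∑ l : Fin s, ((suf M k n w).mulVec v) l • g l := by
      funext x
      have h2 := mprod_split M k n x w
        ((univ.filter fun i : Fin n => (i : ℕ) < k).piecewise x w)
        (fun i hi => Finset.piecewise_eq_of_mem _ _ _ (by simpa using hi))
        (fun i hi => Finset.piecewise_eq_of_notMem _ _ _ (by simpa using hi))
      unfold col
      beta_reduce
      rw [h2, ← Matrix.mulVec_mulVec, Matrix.dotProduct_mulVec, Finset.sum_apply, hg]
      unfold dotProduct
      refine Finset.sum_congr rfl fun l _ => ?_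
      rw [Pi.smul_apply, smul_eq_mul, mul_comm]
    rw [h1]
    exact Submodule.sum_mem _ fun l _ =>
      Submodule.smul_mem _ _ (Submodule.subset_span (Set.mem_range_self l))
  unfold crk
  refine (Submodule.finrank_mono hle).trans ?_
  refine (finrank_range_le_card g).trans ?_
  rw [Fintype.card_fin]

end Pool.Agent.Helper84.MP
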